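import Mathlib
import Pool.Agent.TH117.GN.WeilEtaleDefs
import Pool.Agent.Y156.P.Abs
import Pool.Agent.Y156.P.Crit

/-!
# Finite generation of Weil-étale motivic cohomology for varieties over finite fields generated by
abelian varieties of prime dimensions, or with irreducible fields of Frobenius

Over an algebraic closure of the field with `p` elements each abelian variety is isogenous to the
reduction of an abelian variety of CM type (Honda, Tate). So an abelian variety over the field with
`p ^ a` elements is modelled by `RedAV`: a finite product of CM types `(E i, Φ i)` with Weil numbers
`π i ∈ E i` that satisfy the formula of Shimura and Taniyama; its cohomology of degree `n`, with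
coefficients in an algebraically closed field `Ω`, consists of the alternating `n`-forms on
`Ω ⊗ H_1`, on which the Frobenius endomorphism acts by `π`. We fix an isomorphism `ν` of the algebraic
closure of `ℚ_p` with `ℂ`; it defines a `p`-adic valuation of `ℂ`, with the value one at `p`.

Let `K i` (`i` in a finite set) be CM fields of degrees `2 g i` and `π i` Weil numbers for `p ^ a` in
`K i`, each of one of the following two kinds (`IsGoodWeil`).

* Prime dimension (`IsPrimeWeil`): `g i` is `1` or a prime number, each power `(π i) ^ n`, `n ≥ 1`,
  generates `K i`, and if `g i` is an odd prime number and `K i` has a quadratic subfield, the slopes
  of `π i` have odd denominators (`OddSlopes`), for instance `π i` is ordinary. By Honda and Tate they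
  correspond to the geometrically simple abelian varieties of dimension `g i` with commutative
  geometric endomorphism ring which are not supersingular. The condition on the slopes is necessary
  in general: if `K i` contains an imaginary quadratic field then for the slopes `0, 1 / 2, 1`
  (`g i = 3`) and similar ones there are exotic Tate classes (Weil classes) on powers of the abelian
  variety. No condition on the slopes is made if `K i` has no quadratic subfield or `g i ≤ 2`, and
  none on the Galois group of `K i`.
* Irreducible fields (`IsIrreducibleWeil`): `g i` is arbitrary; the rational functions on the set of
  the complex embeddings of `K i` that change their sign under complex conjugation form an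
  irreducible representation of the group of automorphisms of `ℂ` (`OddIrreducible`); `π i` generates
  `K i` and is not supersingular (some slope is not `1 / 2`). By the third part of the theorem
  (`IrreducibilityCriteria`) this is so if `K i` has a flip (`HasFlip`): an automorphism of `ℂ`
  that exchanges two complex conjugate embeddings of `K i` and fixes all others, so in particular if
  the Galois group has the largest possible order `2 ^ g g!`, the generic case; and if `g i` is an odd
  prime number and `K i` has no quadratic subfield.

The fields `K i` are pairwise independent (`PairwiseIndep`): for `i ≠ k` and all complex embeddings
`φ` of `K i` and `ψ` of `K k` some automorphism of `ℂ` is the identity on `φ (K i)` and the complex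
conjugation on `ψ (K k)`. This is no condition if there is only one field. By the second part of the
theorem (`FieldsIndependent`) fields of pairwise different degrees are pairwise independent if all of
them, except perhaps the one of smallest degree, have irreducible odd parts. So for instance for
geometrically simple abelian varieties of pairwise different odd prime dimensions, with fields of
Frobenius without quadratic subfields, no condition at all is left.

Let `𝒞` (`OfNumbers`) be the class of the abelian varieties `Y` over finite fields of characteristic
`p` each of whose simple factors is supersingular or has a Frobenius endomorphism some positive power
of which is the image of a positive power of one of the `π i`. In other words `Y` is, over an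
algebraic closure, isogenous to a product of a supersingular abelian variety and of arbitrary powers
of the abelian varieties with the Weil numbers `π i`.

`Homology Ω V` are data of motivic homology `M X i j = H_i^M(X, ℚ(j)) = CH_j(X, i - 2 j) ⊗ ℚ` and of
`ℓ`-adic homology `E X i j = H_i(X, ℚ_ℓ(j))` (coefficients extended to `Ω`) of schemes `X` of finite
type over a finite field (the elements of `V`), with the Frobenius and the regulator. Let `𝒢` be the
smallest class (`Generated`) of such schemes that contains those with the homology groups of abelian
varieties in `𝒞` (`IsAbelianOfNumbers`), that is closed under direct summands of finite sums of twists
of motives, and that contains all of a closed subscheme `Z` of `X`, `X` and `X ∖ Z` if it contains two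
of them. It contains for instance all products of varieties in `𝒞`, all products of curves with
Jacobians in `𝒞` and of open subsets of such curves, symmetric powers of them, and the singular and
the open varieties with a stratification by such varieties.

The first part of the theorem: for all smooth projective varieties `X` in `𝒢` (the property `S`) and
all `n` and `i` the Weil-étale motivic cohomology group `W X n i = H^i_W(X, ℤ(n))` is finitely
generated. We use the theorem of Geisser and Kahn (`IsWeilEtale`) that these groups are finitely
generated if for `X` the conjecture of Tate and Beilinson `TB` holds (for all degrees and twists).

Properties of the theory of cycles that are used for the abelian varieties (`IsChow`,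
`IsMotivic`): Poincaré duality, the formal properties of correspondences, the nilpotence of
homologically trivial correspondences (Kimura), the operation of the Frobenius endomorphism on higher
Chow groups, the vanishing of the higher rational `K`-groups of a finite field (Quillen), and the
algebraicity of the classes in `Alg` (of which only products of classes of divisors matter here,
theorem of Tate). The passage from the Tate conjecture to all degrees and to the class `Generated` is
due to Soulé, Geisser, Kahn and Jannsen; it was formalized in the starting files and by helper117
(MP_cb388a_ag GeneratedByAbelian).

Known results of this kind are about the powers of one simple abelian variety (Tankeev, Zarhin,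
Lenstra: prime dimension, large Galois groups, almost ordinary ones, `K3` type), about products of
elliptic curves (Spiess) and some other abelian varieties of low dimension, or about families with
exceptions: almost all slope types (`AllCMFields`, by helper1). Here products of any number of
different factors are admitted and there are no exceptions.

The proof. Suppose that a product of eigenvalues `φ (π i)`, no two of them complex conjugate, is a
power of `q`, up to a root of unity. Since the fields are pairwise independent, a suitable
automorphism of `ℂ` and the quotient of the two relations give such a relation for one field
`K = K i` alone. Let `w (φ)` be the slope of `φ (π)` minus `1 / 2`, a function on the complex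
embeddings of `K` which is odd, that is, changes the sign under complex conjugation. Then all `w τ`
are orthogonal to a nonzero space `S` of odd rational functions which is stable under the
automorphisms `τ` of `ℂ`. If the space of all odd functions is irreducible it is `S`, and `w = 0`, that
is, `π` is supersingular. Let now `g` be a prime number (or one). First, there are two different
embeddings `φ`, `φ'` with `w (τ φ) = w (τ φ')` for all automorphisms `τ`, or `S` is spanned by a
function `ε` with values `1` and `-1`, and `g` is odd. To see this for odd `g`, let `σ` be an element
of order `g` of the image of the group of automorphisms in the permutations of the embeddings
(Cauchy). It has two orbits `C` and `c C`, exchanged by complex conjugation `c`. For `u ∈ S` the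
cyclic correlations of the restrictions of `w τ` and `u` to `C` are zero. Since the cyclotomic
polynomial of order `g` is irreducible over `ℚ` one of the two restrictions is constant. If all `w τ`
are constant on `C`, take `φ ∈ C`, `φ' = σ φ`. If not, all `u ∈ S` are constant on `C`; then `K` has a
quadratic subfield, and the sum of `w` over the `g` elements of `C` is zero. This is impossible since
`2 d w` has odd values, `d` the odd denominator of the slopes. The cases `g = 1, 2` are elementary.
Finally, if `w (τ φ) = w (τ φ')` for all `τ` then all absolute values (archimedean, `p`-adic and
`l`-adic) of all conjugates of the quotient of `φ (π)` and `φ' (π)` are one. By Kronecker's theorem it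
is a root of unity, so `φ (π) ^ n = φ' (π) ^ n` for some `n`, and `π ^ n` does not generate `K`.

For the second part: if there is no automorphism `τ` which fixes a generator `ρ` of the smaller field
and conjugates `ψ`, then the difference of the characteristic functions of the orbits of `ψ` and of
its conjugate under the stabilizer of `ρ` is a nonzero odd function, and its translates, which are
numbered by the conjugates of `ρ` and come in pairs with opposite signs, span all odd functions; so
the degree of `ρ` is at least `2 g`.
-/

set_option autoImplicit false

namespace Pool.Agent.Results.MP_cb388a_ag.PrimeDimensionFactors

open NumberField Pool.Agent.H977R3.CM Pool.Agent.TH170 Pool.Agent.Y156.P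

open Pool.Agent.W495.TA Pool.Agent.W495.FM

open Pool.Agent.TH117.GN (IsWeilEtale)

/-- The groups `H^i_W(X, ℤ(n))` are finitely generated for all smooth projective varieties generated by
abelian varieties with the Weil numbers `π i`. -/
def Holds {p : ℕ} [Fact p.Prime] (ν : PadicAlgCl p ≃+* ℂ) {I : Type} {K : I → Type}
    [∀ i, Field (K i)] (π : ∀ i, K i) : Prop :=
  ∀ (Ω : Type) [Field Ω] [IsAlgClosed Ω] [CharZero Ω] (V : Type) (T : Homology Ω V),
    IsHomology T → ∀ (S : V → Prop) (W : V → ℤ → ℤ → Type) [∀ X n i, AddCommGroup (W X n i)],
      IsWeilEtale T S W → ∀ X : V, S X → Generated T (IsAbelianOfNumbers ν π T) X →
        ∀ n i : ℤ, AddGroup.FG (W X n i)

/-- **The Weil-étale motivic cohomology groups are finitely generated for all smooth projective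
varieties generated by abelian varieties whose factors have prime dimension or irreducible fields of
Frobenius, pairwise independent.** -/
theorem result :
    (∀ (p : ℕ) [Fact p.Prime] (ν : PadicAlgCl p ≃+* ℂ) (a : ℕ), 0 < a → ∀ (I : Type) [Fintype I]
      (K : I → Type) [∀ i, Field (K i)] [∀ i, NumberField (K i)] [∀ i, IsCMField (K i)],
      PairwiseIndep K → ∀ π : ∀ i, K i, (∀ i, IsGoodWeil p a (π i)) → Holds ν π) ∧
    FieldsIndependent ∧ IrreducibilityCriteria :=
  ⟨fun p _ ν a ha I _ K _ _ _ hK π hπ Ω _ _ _ V T hT S W _ hW X hS hX =>
    hW X hS (tb_numbers ha hK hπ hT hX),
    fieldsIndependent_holds, irreducibilityCriteria_hold⟩

end Pool.Agent.Results.MP_cb388a_ag.PrimeDimensionFactors
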