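import Pool.Agent.Y116.WE.Main

/-!
# Finite generation of Weil-étale motivic cohomology and trilinear forms
-/

set_option autoImplicit false

open CategoryTheory AlgebraicGeometry Pool.Agent.Y116.UV Pool.Agent.Y101.Th Pool.Agent.Y116.WE

namespace Pool.Agent.Results.MP_cb388a_ag.TrilinearHypersurfaces

variable {k : Type} [Field k] {T : WeilEtale k}

/-- **Finite generation of Weil-étale motivic cohomology and trilinear forms.** Let `k` be a finite
field of characteristic `p`. For all `d`, the groups `H^i_W(X, ℤ(n))`, `n ≥ 0`, of all smooth projective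
schemes `X` of dimension at most `d` over `k` are finitely generated if and only if the groups
`H_i^c(X_W, ℤ[1/p](n))` are finitely generated over `ℤ[1/p]` for the smooth affine cubic hypersurfaces
`t(x, y, z) = 1` for all trilinear forms `t` one of whose blocks of variables has at most `d + 2`
variables; over a prime field the forms with coefficients `0` and `1` are sufficient. They are finitely
generated for the forms `t` one of whose blocks has at most three variables. -/
theorem result [Finite k] (hT : IsWeilEtale T) :
    (∀ d : ℕ,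
      (∀ X : Sch k, SmProj X → topologicalKrullDim X.left ≤ d → Lich T X) ↔
      ∀ (a b c : ℕ) (t : Fin a → Fin b → Fin c → k), (a ≤ d + 2 ∨ b ≤ d + 2 ∨ c ≤ d + 2) →
        WFin T (hypS t)) ∧
    ((∀ X : Sch k, SmProj X → Lich T X) ↔
      ∀ (a b c : ℕ) (t : Fin a → Fin b → Fin c → k), WFin T (hypS t)) ∧
    ((Nat.card k).Prime → ∀ d : ℕ,
      (∀ X : Sch k, SmProj X → topologicalKrullDim X.left ≤ d → Lich T X) ↔
      ∀ (a b : ℕ) (H : Finset (Fin a × Fin b × Fin (d + 2))), WFin T (tripS k H)) ∧
    ∀ (a b c : ℕ) (t : Fin a → Fin b → Fin c → k), (a ≤ 3 ∨ b ≤ 3 ∨ c ≤ 3) →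
      WFin T (hypS t) := by
  have hP := bnd_w hT
  exact ⟨fun d => (hT.alterations d).trans (gen_dim hP d),
    hT.alterations_all.trans (gen_all hP.toUni),
    fun hk d => (hT.alterations d).trans (gen_prime (int_surj hk) hP d),
    gen_curves hP hT.curves⟩

end Pool.Agent.Results.MP_cb388a_ag.TrilinearHypersurfaces
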